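import Pool.Agent.HAS82.Basic

/-!
# Theorem Hasse and Theorem G (note 3199 of helper42), second half
-/

set_option linter.unusedSectionVars false

namespace Pool.Agent.HAS82

open scoped Classical
open Finset

/-! ### Signs -/

/-- the sign of an element of `F_2` -/
def sg (a : ZMod 2) : ℤ := if a = 0 then 1 else -1

theorem sg_add : ∀ a b : ZMod 2, sg (a + b) = sg a * sg b := by decide

theorem sg_zero : sg 0 = 1 := rfl

theorem sg_one : sg 1 = -1 := rfl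

theorem sg_le (a : ZMod 2) : 0 ≤ 1 - sg a := by
  unfold sg
  split <;> norm_num

theorem one_of_ne : ∀ a : ZMod 2, a ≠ 0 → a = 1 := by decide

section Char

variable {A : Type*} [AddCommGroup A] [Module (ZMod 2) A] [Fintype A]

/-- the character sum over a subspace -/
noncomputable def T (Λ : Module.Dual (ZMod 2) A) (H : Submodule (ZMod 2) A) : ℤ :=
  ∑ ψ : A, sg (Λ ψ) * (ind (ψ ∈ H) : ℤ)

theorem T_pos {Λ : Module.Dual (ZMod 2) A} {H : Submodule (ZMod 2) A} (h : ∀ ψ ∈ H, Λ ψ = 0) :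
    0 < T Λ H := by
  unfold T
  refine Finset.sum_pos' (fun ψ _ => ?_) ⟨0, Finset.mem_univ _, ?_⟩
  · unfold ind
    split
    · rename_i h1
      rw [h ψ h1, sg_zero]
      norm_num
    · simp
  · rw [map_zero, sg_zero]
    unfold ind
    rw [if_pos H.zero_mem]
    norm_num

theorem T_zero {Λ : Module.Dual (ZMod 2) A} {H : Submodule (ZMod 2) A}
    (h : ¬ ∀ ψ ∈ H, Λ ψ = 0) : T Λ H = 0 := by
  push Not at h
  obtain ⟨ρ, h1, h2⟩ := h
  have h3 : T Λ H = - T Λ H := by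
    unfold T
    rw [← Finset.sum_neg_distrib]
    refine Fintype.sum_equiv (Equiv.addRight ρ) _ _ fun ψ => ?_
    show sg (Λ ψ) * (ind (ψ ∈ H) : ℤ) = -(sg (Λ (ψ + ρ)) * (ind (ψ + ρ ∈ H) : ℤ))
    have h4 : (ψ + ρ ∈ H) = (ψ ∈ H) := propext (Submodule.add_mem_iff_left H h1)
    rw [h4, map_add, sg_add, one_of_ne _ h2, sg_one]
    ring
  linarith

theorem T_nonneg (Λ : Module.Dual (ZMod 2) A) (H : Submodule (ZMod 2) A) : 0 ≤ T Λ H := by
  by_cases h : ∀ ψ ∈ H, Λ ψ = 0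
  · exact (T_pos h).le
  · rw [T_zero h]

/-- the convolution inequality -/
theorem conv_ineq (κ : A → ℤ)
    (hpd : ∀ (χ : A) (Λ : Module.Dual (ZMod 2) A), 0 ≤ ∑ ψ : A, sg (Λ ψ) * (κ ψ * κ (ψ + χ)))
    (a b : Module.Dual (ZMod 2) A) :
    (∑ ψ : A, sg (a ψ) * κ ψ) * (∑ ψ : A, sg (b ψ) * κ ψ) ≤
    (∑ ψ : A, sg ((a + b) ψ) * κ ψ) * ∑ ψ : A, κ ψ := by
  have h1 : 0 ≤ ∑ χ : A, (1 - sg (a χ)) * ∑ ψ : A, sg ((a + b) ψ) * (κ ψ * κ (ψ + χ)) :=
    Finset.sum_nonneg fun χ _ => mul_nonneg (sg_le _) (hpd χ _)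
  have h2 : ∑ χ : A, ∑ ψ : A, sg ((a + b) ψ) * (κ ψ * κ (ψ + χ)) =
      (∑ ψ : A, sg ((a + b) ψ) * κ ψ) * ∑ ψ : A, κ ψ := by
    rw [Finset.sum_comm, Finset.sum_mul]
    refine Finset.sum_congr rfl fun ψ _ => ?_
    rw [Finset.mul_sum]
    refine Fintype.sum_equiv (Equiv.addLeft ψ) _ _ fun χ => ?_
    show _ = sg ((a + b) ψ) * κ ψ * κ (ψ + χ)
    ring
  have h3 : ∑ χ : A, sg (a χ) * ∑ ψ : A, sg ((a + b) ψ) * (κ ψ * κ (ψ + χ)) =
      (∑ ψ : A, sg (a ψ) * κ ψ) * (∑ ψ : A, sg (b ψ) * κ ψ) := by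
    simp only [Finset.mul_sum]
    rw [Finset.sum_comm]
    refine Finset.sum_congr rfl fun ψ _ => ?_
    rw [Finset.sum_mul]
    refine Fintype.sum_equiv (Equiv.addLeft ψ) _ _ fun χ => ?_
    show _ = sg (a (ψ + χ)) * κ (ψ + χ) * (sg (b ψ) * κ ψ)
    rw [LinearMap.add_apply, sg_add, map_add, sg_add]
    have h4 : sg (a ψ) * sg (a ψ) = 1 := by
      rw [← sg_add, add_self' (a ψ), sg_zero]
    ring
  have h5 : ∑ χ : A, (1 - sg (a χ)) * ∑ ψ : A, sg ((a + b) ψ) * (κ ψ * κ (ψ + χ)) =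
      (∑ ψ : A, sg ((a + b) ψ) * κ ψ) * ∑ ψ : A, κ ψ -
      (∑ ψ : A, sg (a ψ) * κ ψ) * (∑ ψ : A, sg (b ψ) * κ ψ) := by
    rw [← h2, ← h3, ← Finset.sum_sub_distrib]
    refine Finset.sum_congr rfl fun χ _ => ?_
    ring
  rw [h5] at h1
  linarith

end Char

section Main

variable {X Y B : Type*} [AddCommGroup X] [Module (ZMod 2) X] [Finite X]
  [AddCommGroup Y] [Module (ZMod 2) Y] [Finite Y] [AddCommGroup B] [Module (ZMod 2) B]

instance finLI (f : X →ₗ[ZMod 2] Y →ₗ[ZMod 2] B) : Finite (LI f) := by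
  have h : ∀ φ : LI f, ∀ x, ∃ y, (φ : X →ₗ[ZMod 2] B) x = f x y := fun φ => φ.2
  choose g hg using h
  refine Finite.of_injective g ?_
  intro φ ψ h
  apply Subtype.ext
  apply LinearMap.ext
  intro x
  rw [hg, hg, h]

variable (f : X →ₗ[ZMod 2] Y →ₗ[ZMod 2] B)

/-- evaluation at `v` -/
def ev (v : X) : LI f →ₗ[ZMod 2] B := (LinearMap.applyₗ v).comp (LI f).subtype

@[simp] theorem ev_apply (v : X) (φ : LI f) : ev f v φ = (φ : X →ₗ[ZMod 2] B) v := rfl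

/-- the size of the kernel -/
noncomputable def kap (φ : LI f) : ℤ := (Nat.card (LinearMap.ker (φ : X →ₗ[ZMod 2] B)) : ℤ)

theorem kap_sum [Fintype X] (φ : LI f) : kap f φ =
    ∑ v : X, (ind (φ ∈ LinearMap.ker (ev f v)) : ℤ) := by
  unfold kap
  rw [natCard_eq, Nat.cast_sum]
  refine Finset.sum_congr rfl fun v _ => ?_
  congr 2

theorem kap_hat [Fintype X] [Fintype (LI f)] (Λ : Module.Dual (ZMod 2) (LI f)) :
    ∑ φ : LI f, sg (Λ φ) * kap f φ = ∑ v : X, T Λ (LinearMap.ker (ev f v)) := by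
  simp only [kap_sum, Finset.mul_sum]
  rw [Finset.sum_comm]
  rfl

variable {f}

theorem kap_pd (hX : LX f) (hY : LY f) [Fintype (LI f)] (χ : LI f)
    (Λ : Module.Dual (ZMod 2) (LI f)) :
    0 ≤ ∑ ψ : LI f, sg (Λ ψ) * (kap f ψ * kap f (ψ + χ)) := by
  have := Fintype.ofFinite X
  have h1 : ∀ ψ : LI f, kap f ψ * kap f (ψ + χ) = ∑ v : X, ∑ w : X,
      (ind ((χ : X →ₗ[ZMod 2] B) w = 0) : ℤ) * (ind (ψ ∈ (LinearMap.range
        (χ : X →ₗ[ZMod 2] B)).comap (ev f v) ⊓ LinearMap.ker (ev f w)) : ℤ) := by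
    intro ψ
    have h2 := eq_of_lk (lk_all hX hY ψ.2 χ.2)
    have h3 : kap f ψ * kap f (ψ + χ) = ((lhs (ψ : X →ₗ[ZMod 2] B) (χ : X →ₗ[ZMod 2] B) : ℕ) : ℤ) := by
      unfold kap lhs
      push_cast
      rfl
    rw [h3, h2, rhs_sum]
    push_cast
    refine Finset.sum_congr rfl fun v _ => Finset.sum_congr rfl fun w _ => ?_
    rw [← Nat.cast_mul, ← ind_and]
    congr 2
    apply propext
    constructor
    · rintro ⟨h4, h5, h6⟩
      exact ⟨h6, h4, h5⟩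
    · rintro ⟨h6, h4, h5⟩
      exact ⟨h4, h5, h6⟩
  have h2 : ∑ ψ : LI f, sg (Λ ψ) * (kap f ψ * kap f (ψ + χ)) = ∑ v : X, ∑ w : X,
      (ind ((χ : X →ₗ[ZMod 2] B) w = 0) : ℤ) * T Λ ((LinearMap.range
        (χ : X →ₗ[ZMod 2] B)).comap (ev f v) ⊓ LinearMap.ker (ev f w)) := by
    simp only [h1, Finset.mul_sum]
    rw [Finset.sum_comm]
    refine Finset.sum_congr rfl fun v _ => ?_
    rw [Finset.sum_comm]
    refine Finset.sum_congr rfl fun w _ => ?_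
    unfold T
    rw [Finset.mul_sum]
    refine Finset.sum_congr rfl fun ψ _ => ?_
    ring
  rw [h2]
  exact Finset.sum_nonneg fun v _ => Finset.sum_nonneg fun w _ =>
    mul_nonneg (Int.natCast_nonneg _) (T_nonneg _ _)

/-- (3) the functionals killing some `L_v` form a group -/
theorem supp_add (hX : LX f) (hY : LY f) {a b : Module.Dual (ZMod 2) (LI f)}
    (ha : ∃ v, ∀ ψ ∈ LinearMap.ker (ev f v), a ψ = 0)
    (hb : ∃ v, ∀ ψ ∈ LinearMap.ker (ev f v), b ψ = 0) :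
    ∃ v, ∀ ψ ∈ LinearMap.ker (ev f v), (a + b) ψ = 0 := by
  have := Fintype.ofFinite X
  have := Fintype.ofFinite (LI f)
  have hpos : ∀ c : Module.Dual (ZMod 2) (LI f),
      (∃ v, ∀ ψ ∈ LinearMap.ker (ev f v), c ψ = 0) → 0 < ∑ φ : LI f, sg (c φ) * kap f φ := by
    rintro c ⟨v, hv⟩
    rw [kap_hat]
    exact Finset.sum_pos' (fun w _ => T_nonneg _ _) ⟨v, Finset.mem_univ _, T_pos hv⟩
  by_contra hcon
  have h1 : ∑ φ : LI f, sg ((a + b) φ) * kap f φ = 0 := by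
    rw [kap_hat]
    refine Finset.sum_eq_zero fun v _ => T_zero fun h => hcon ⟨v, h⟩
  have h2 := conv_ineq (kap f) (kap_pd hX hY) a b
  rw [h1, zero_mul] at h2
  have h3 := mul_pos (hpos a ha) (hpos b hb)
  linarith

/-- **Theorem G** (note 3199): in a finite two-sided linked pairing every locally inner linear
map is inner. -/
theorem thmG (hX : LX f) (hY : LY f) (φ : X →ₗ[ZMod 2] B) (hφ : ∀ x, ∃ y, φ x = f x y) :
    ∃ y, ∀ x, φ x = f x y := by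
  let S : Submodule (ZMod 2) (Module.Dual (ZMod 2) (LI f)) :=
    { carrier := {a | ∃ v, ∀ ψ ∈ LinearMap.ker (ev f v), a ψ = 0}
      add_mem' := fun ha hb => supp_add hX hY ha hb
      zero_mem' := ⟨0, fun ψ _ => rfl⟩
      smul_mem' := by
        rintro c a ⟨v, hv⟩
        exact ⟨v, fun ψ h => by rw [LinearMap.smul_apply, hv ψ h, smul_zero]⟩ }
  have h1 : S.dualCoannihilator = ⊥ := by
    rw [eq_bot_iff]
    intro ψ hψ
    rw [Submodule.mem_bot]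
    rw [Submodule.mem_dualCoannihilator] at hψ
    apply Subtype.ext
    apply LinearMap.ext
    intro v
    show (ψ : X →ₗ[ZMod 2] B) v = 0
    rw [← Module.forall_dual_apply_eq_zero_iff (ZMod 2)]
    intro g
    refine hψ (g.comp (ev f v)) ⟨v, fun ρ hρ => ?_⟩
    rw [LinearMap.comp_apply, LinearMap.mem_ker.1 hρ, map_zero]
  have h2 : S = ⊤ := by
    rw [← Subspace.dualCoannihilator_dualAnnihilator_eq (W := S), h1,
      Submodule.dualAnnihilator_bot]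
  let φ' : LI f := ⟨φ, hφ⟩
  let R : Submodule (ZMod 2) (LI f) :=
    LinearMap.range (LinearMap.codRestrict (LI f) f.flip (fun t => ad_mem f t))
  by_contra hcon
  have h3 : φ' ∉ R := by
    rintro ⟨t, ht⟩
    apply hcon
    refine ⟨t, fun x => ?_⟩
    have h4 := congrArg (fun ρ : LI f => (ρ : X →ₗ[ZMod 2] B) x) ht
    exact h4.symm
  obtain ⟨Λ, h4, h5⟩ := Submodule.exists_le_ker_of_notMem h3
  have h6 : Λ ∈ S := by
    rw [h2]
    exact Submodule.mem_top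
  obtain ⟨v, hv⟩ := h6
  obtain ⟨t0, ht0⟩ := hφ v
  let τ : LI f := ⟨ad f t0, ad_mem f t0⟩
  have h7 : Λ (φ' + τ) = 0 := by
    apply hv
    rw [LinearMap.mem_ker]
    show φ v + f v t0 = 0
    rw [ht0, add_self']
  have h8 : Λ τ = 0 := h5 ⟨t0, rfl⟩
  rw [map_add, h8, add_zero] at h7
  exact h4 h7

/-- **Theorem Hasse** (note 3199): in a finite linked symmetric pairing every locally inner
linear map is inner. -/
theorem hasse {V : Type*} [AddCommGroup V] [Module (ZMod 2) V] [Finite V]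
    (g : V →ₗ[ZMod 2] V →ₗ[ZMod 2] B) (hs : ∀ x y, g x y = g y x) (hX : LX g)
    (φ : V →ₗ[ZMod 2] B) (hφ : ∀ x, ∃ y, φ x = g x y) : ∃ y, ∀ x, φ x = g x y := by
  refine thmG hX ?_ φ hφ
  intro x1 x2 y1 y2 h
  obtain ⟨y, h1, h2⟩ := hX y1 y2 x1 x2 (by rw [hs, h, hs])
  exact ⟨y, by rw [hs, h1, hs], by rw [hs, h2, hs]⟩

end Main

end Pool.Agent.HAS82
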