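import Mathlib

/-!
# Theorem Hasse and Theorem G (note 3199 of helper42)

A finite pairing `f : X × Y → B` over `F_2`, two-sided linked.  Every linear map `φ : X → B` with
`φ x ∈ f x Y` for every `x` is `f · y₀` for one `y₀`.
-/

set_option linter.unusedSectionVars false

namespace Pool.Agent.HAS82

open scoped Classical
open Finset

variable {X Y B : Type*} [AddCommGroup X] [Module (ZMod 2) X] [Finite X]
  [AddCommGroup Y] [Module (ZMod 2) Y] [Finite Y] [AddCommGroup B] [Module (ZMod 2) B]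

theorem add_self' {M : Type*} [AddCommGroup M] [Module (ZMod 2) M] (a : M) : a + a = 0 := by
  have h := two_smul (ZMod 2) a
  rw [← h, show (2 : ZMod 2) = 0 from rfl, zero_smul]

theorem sub_eq_add' {M : Type*} [AddCommGroup M] [Module (ZMod 2) M] (a b : M) :
    a - b = a + b := by
  rw [sub_eq_iff_eq_add, add_assoc, add_self', add_zero]

theorem add_eq_zero' {M : Type*} [AddCommGroup M] [Module (ZMod 2) M] {a b : M} :
    a + b = 0 ↔ a = b := by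
  rw [← sub_eq_add', sub_eq_zero]

/-- two linear maps on `X` are linked: every common value is a simultaneous value -/
def Lk (ψ χ : X →ₗ[ZMod 2] B) : Prop := ∀ v w, ψ v = χ w → ∃ z, ψ z = ψ v ∧ χ z = ψ v

theorem Lk.symm {ψ χ : X →ₗ[ZMod 2] B} (h : Lk ψ χ) : Lk χ ψ := by
  intro v w hvw
  obtain ⟨z, h1, h2⟩ := h w v hvw.symm
  exact ⟨z, by rw [h2, hvw], by rw [h1, hvw]⟩

/-- the left hand side: `|ker ψ| |ker (ψ + χ)|` -/
noncomputable def lhs (ψ χ : X →ₗ[ZMod 2] B) : ℕ :=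
  Nat.card (LinearMap.ker ψ) * Nat.card (LinearMap.ker (ψ + χ))

/-- the right hand side: `|ker ψ ∩ ker χ| #{v : ψ v ∈ im χ}` -/
noncomputable def rhs (ψ χ : X →ₗ[ZMod 2] B) : ℕ :=
  Nat.card (Submodule.comap ψ (LinearMap.range χ)) *
    Nat.card (LinearMap.ker ψ ⊓ LinearMap.ker χ : Submodule (ZMod 2) X)

theorem card_mul (K1 K2 : Submodule (ZMod 2) X) : Nat.card K1 * Nat.card K2 =
    Nat.card (K1 ⊔ K2 : Submodule (ZMod 2) X) * Nat.card (K1 ⊓ K2 : Submodule (ZMod 2) X) := by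
  have h2 : Nat.card (ZMod 2) = 2 := by simp
  rw [Module.natCard_eq_pow_finrank (K := ZMod 2) (V := K1),
    Module.natCard_eq_pow_finrank (K := ZMod 2) (V := K2),
    Module.natCard_eq_pow_finrank (K := ZMod 2) (V := (K1 ⊔ K2 : Submodule (ZMod 2) X)),
    Module.natCard_eq_pow_finrank (K := ZMod 2) (V := (K1 ⊓ K2 : Submodule (ZMod 2) X)),
    ← pow_add, ← pow_add, Submodule.finrank_sup_add_finrank_inf_eq]

theorem inf_eq (ψ χ : X →ₗ[ZMod 2] B) : LinearMap.ker ψ ⊓ LinearMap.ker (ψ + χ) =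
    LinearMap.ker ψ ⊓ LinearMap.ker χ := by
  ext v
  simp only [Submodule.mem_inf, LinearMap.mem_ker, LinearMap.add_apply]
  constructor
  · rintro ⟨h1, h2⟩
    exact ⟨h1, by rwa [h1, zero_add] at h2⟩
  · rintro ⟨h1, h2⟩
    exact ⟨h1, by rw [h1, h2, zero_add]⟩

theorem sup_le' (ψ χ : X →ₗ[ZMod 2] B) : LinearMap.ker ψ ⊔ LinearMap.ker (ψ + χ) ≤
    Submodule.comap ψ (LinearMap.range χ) := by
  refine sup_le ?_ ?_
  · intro v hv
    rw [Submodule.mem_comap, LinearMap.mem_ker.1 hv]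
    exact Submodule.zero_mem _
  · intro v hv
    rw [LinearMap.mem_ker, LinearMap.add_apply, add_eq_zero'] at hv
    rw [Submodule.mem_comap, hv]
    exact ⟨v, rfl⟩

theorem lhs_eq (ψ χ : X →ₗ[ZMod 2] B) : lhs ψ χ =
    Nat.card (LinearMap.ker ψ ⊔ LinearMap.ker (ψ + χ) : Submodule (ZMod 2) X) *
    Nat.card (LinearMap.ker ψ ⊓ LinearMap.ker χ : Submodule (ZMod 2) X) := by
  rw [lhs, card_mul, inf_eq]

theorem card_mono {K1 K2 : Submodule (ZMod 2) X} (h : K1 ≤ K2) : Nat.card K1 ≤ Nat.card K2 :=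
  Nat.card_le_card_of_injective (Submodule.inclusion h) (Submodule.inclusion_injective h)

theorem lhs_le_rhs (ψ χ : X →ₗ[ZMod 2] B) : lhs ψ χ ≤ rhs ψ χ := by
  rw [lhs_eq, rhs]
  exact Nat.mul_le_mul_right _ (card_mono (sup_le' ψ χ))

theorem lk_of_eq {ψ χ : X →ₗ[ZMod 2] B} (h : lhs ψ χ = rhs ψ χ) : Lk ψ χ := by
  rw [lhs_eq, rhs] at h
  have hpos : 0 < Nat.card (LinearMap.ker ψ ⊓ LinearMap.ker χ : Submodule (ZMod 2) X) :=
    Nat.card_pos
  have h1 := Nat.eq_of_mul_eq_mul_right hpos h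
  have h2 : LinearMap.ker ψ ⊔ LinearMap.ker (ψ + χ) = Submodule.comap ψ (LinearMap.range χ) := by
    apply SetLike.coe_injective
    exact Set.eq_of_subset_of_ncard_le (sup_le' ψ χ) h1.ge (Set.toFinite _)
  intro v w hvw
  have h3 : v ∈ Submodule.comap ψ (LinearMap.range χ) := ⟨w, hvw.symm⟩
  rw [← h2] at h3
  obtain ⟨a, ha, b, hb, hab⟩ := Submodule.mem_sup.1 h3
  rw [LinearMap.mem_ker] at ha
  rw [LinearMap.mem_ker, LinearMap.add_apply, add_eq_zero'] at hb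
  have h4 : ψ v = ψ b := by rw [← hab, map_add, ha, zero_add]
  exact ⟨b, h4.symm, by rw [← hb, h4]⟩

theorem eq_of_lk {ψ χ : X →ₗ[ZMod 2] B} (h : Lk ψ χ) : lhs ψ χ = rhs ψ χ := by
  rw [lhs_eq, rhs]
  congr 2
  have h2 : LinearMap.ker ψ ⊔ LinearMap.ker (ψ + χ) = Submodule.comap ψ (LinearMap.range χ) := by
    apply le_antisymm (sup_le' ψ χ)
    rintro v ⟨w, hw⟩
    obtain ⟨z, h1, h3⟩ := h v w hw.symm
    have : v = (v + z) + z := by rw [add_assoc, add_self', add_zero]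
    rw [this]
    refine Submodule.add_mem_sup ?_ ?_
    · rw [LinearMap.mem_ker, map_add, h1, add_self']
    · rw [LinearMap.mem_ker, LinearMap.add_apply, h1, h3, add_self']
  rw [h2]

/-- the linear map of an element of `Y` -/
abbrev ad (f : X →ₗ[ZMod 2] Y →ₗ[ZMod 2] B) (t : Y) : X →ₗ[ZMod 2] B := f.flip t

/-- the locally inner maps -/
def LI (f : X →ₗ[ZMod 2] Y →ₗ[ZMod 2] B) : Submodule (ZMod 2) (X →ₗ[ZMod 2] B) where
  carrier := {φ | ∀ x, ∃ y, φ x = f x y}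
  add_mem' := by
    intro φ ψ h1 h2 x
    obtain ⟨y1, h3⟩ := h1 x
    obtain ⟨y2, h4⟩ := h2 x
    exact ⟨y1 + y2, by rw [LinearMap.add_apply, h3, h4, map_add]⟩
  zero_mem' := fun x => ⟨0, by simp⟩
  smul_mem' := by
    intro c φ h x
    obtain ⟨y, hy⟩ := h x
    exact ⟨c • y, by rw [LinearMap.smul_apply, hy, map_smul]⟩

theorem mem_LI {f : X →ₗ[ZMod 2] Y →ₗ[ZMod 2] B} {φ : X →ₗ[ZMod 2] B} :
    φ ∈ LI f ↔ ∀ x, ∃ y, φ x = f x y := Iff.rfl

theorem ad_mem (f : X →ₗ[ZMod 2] Y →ₗ[ZMod 2] B) (t : Y) : ad f t ∈ LI f := fun _ => ⟨t, rfl⟩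

/-- linkage of the pairs of `X` via `Y` -/
def LX (f : X →ₗ[ZMod 2] Y →ₗ[ZMod 2] B) : Prop :=
  ∀ x1 x2 y1 y2, f x1 y1 = f x2 y2 → ∃ y, f x1 y = f x1 y1 ∧ f x2 y = f x1 y1

/-- linkage of the pairs of `Y` via `X` -/
def LY (f : X →ₗ[ZMod 2] Y →ₗ[ZMod 2] B) : Prop :=
  ∀ x1 x2 y1 y2, f x1 y1 = f x2 y2 → ∃ x, f x y1 = f x1 y1 ∧ f x y2 = f x1 y1

/-- (0) a locally inner map is inner on every plane -/
theorem plane {f : X →ₗ[ZMod 2] Y →ₗ[ZMod 2] B} (hX : LX f) {φ : X →ₗ[ZMod 2] B}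
    (hφ : φ ∈ LI f) (v w : X) : ∃ t, f v t = φ v ∧ f w t = φ w := by
  obtain ⟨y1, h1⟩ := hφ v
  obtain ⟨y2, h2⟩ := hφ w
  obtain ⟨y3, h3⟩ := hφ (v + w)
  have h4 : f v (y3 + y1) = f w (y2 + y3) := by
    rw [map_add, h1, h2, map_add f, LinearMap.add_apply] at h3
    rw [map_add, map_add, ← sub_eq_add', ← sub_eq_add', sub_eq_sub_iff_add_eq_add,
      add_comm, add_comm (f w y2)]
    rw [add_comm, ← h3, add_comm]
  obtain ⟨y, h5, h6⟩ := hX _ _ _ _ h4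
  refine ⟨y3 + y, ?_, ?_⟩
  · rw [map_add, h5, map_add, ← add_assoc, add_self', zero_add, h1]
  · rw [map_add, h6, h4, map_add, add_comm (f w y2), ← add_assoc, add_self', zero_add, h2]

/-! ### Indicator functions -/

/-- indicator -/
noncomputable def ind (p : Prop) : ℕ := if p then 1 else 0

theorem ind_and (p q : Prop) : ind (p ∧ q) = ind p * ind q := by
  unfold ind
  by_cases hp : p <;> by_cases hq : q <;> simp [hp, hq]

theorem natCard_eq [Fintype X] (K : Submodule (ZMod 2) X) :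
    Nat.card K = ∑ v : X, ind (v ∈ K) := by
  unfold ind
  rw [← Finset.card_filter, Nat.card_eq_fintype_card, Fintype.card_subtype]

theorem lhs_sum [Fintype X] (ψ χ : X →ₗ[ZMod 2] B) :
    lhs ψ χ = ∑ v : X, ∑ w : X, ind (ψ v = 0 ∧ ψ w = χ w) := by
  rw [lhs, natCard_eq, natCard_eq, Finset.sum_mul_sum]
  refine Finset.sum_congr rfl fun v _ => Finset.sum_congr rfl fun w _ => ?_
  rw [← ind_and]
  congr 1
  simp only [LinearMap.mem_ker, LinearMap.add_apply, add_eq_zero']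

theorem rhs_sum [Fintype X] (ψ χ : X →ₗ[ZMod 2] B) :
    rhs ψ χ = ∑ v : X, ∑ w : X, ind (ψ v ∈ LinearMap.range χ ∧ (ψ w = 0 ∧ χ w = 0)) := by
  rw [rhs, natCard_eq, natCard_eq, Finset.sum_mul_sum]
  refine Finset.sum_congr rfl fun v _ => Finset.sum_congr rfl fun w _ => ?_
  rw [← ind_and]
  congr 1

/-- shifting a coset sum -/
theorem shift [Fintype X] [Fintype Y] {f : X →ₗ[ZMod 2] Y →ₗ[ZMod 2] B} (hX : LX f)
    {φ : X →ₗ[ZMod 2] B} (hφ : φ ∈ LI f) (P : X → X → B → B → Prop) :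
    ∑ t : Y, ∑ v : X, ∑ w : X, ind (P v w ((φ + ad f t) v) ((φ + ad f t) w)) =
    ∑ t : Y, ∑ v : X, ∑ w : X, ind (P v w ((ad f t) v) ((ad f t) w)) := by
  rw [Finset.sum_comm]
  conv_rhs => rw [Finset.sum_comm]
  refine Finset.sum_congr rfl fun v _ => ?_
  rw [Finset.sum_comm]
  conv_rhs => rw [Finset.sum_comm]
  refine Finset.sum_congr rfl fun w _ => ?_
  obtain ⟨t0, h1, h2⟩ := plane hX hφ v w
  refine Fintype.sum_equiv (Equiv.addRight t0) _ _ fun t => ?_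
  have h3 : ∀ x, f x t0 = φ x → (φ + ad f t) x = ad f (t + t0) x := by
    intro x hx
    show φ x + f x t = f x (t + t0)
    rw [map_add, hx, add_comm]
  show ind _ = ind (P v w ((ad f (t + t0)) v) ((ad f (t + t0)) w))
  rw [h3 v h1, h3 w h2]

theorem lhs_shift [Fintype Y] {f : X →ₗ[ZMod 2] Y →ₗ[ZMod 2] B} (hX : LX f)
    {φ : X →ₗ[ZMod 2] B} (hφ : φ ∈ LI f) (χ : X →ₗ[ZMod 2] B) :
    ∑ t : Y, lhs (φ + ad f t) χ = ∑ t : Y, lhs (ad f t) χ := by
  have := Fintype.ofFinite X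
  simp only [lhs_sum]
  exact shift hX hφ fun v w b c => b = 0 ∧ c = χ w

theorem rhs_shift [Fintype Y] {f : X →ₗ[ZMod 2] Y →ₗ[ZMod 2] B} (hX : LX f)
    {φ : X →ₗ[ZMod 2] B} (hφ : φ ∈ LI f) (χ : X →ₗ[ZMod 2] B) :
    ∑ t : Y, rhs (φ + ad f t) χ = ∑ t : Y, rhs (ad f t) χ := by
  have := Fintype.ofFinite X
  simp only [rhs_sum]
  exact shift hX hφ fun v w b c => b ∈ LinearMap.range χ ∧ (c = 0 ∧ χ w = 0)

/-- (1), (2): if `χ` is linked with every inner map then with every locally inner map -/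
theorem lk_step {f : X →ₗ[ZMod 2] Y →ₗ[ZMod 2] B} (hX : LX f) {χ : X →ₗ[ZMod 2] B}
    (h : ∀ t, Lk (ad f t) χ) {φ : X →ₗ[ZMod 2] B} (hφ : φ ∈ LI f) : Lk φ χ := by
  have := Fintype.ofFinite Y
  have h1 : ∑ t : Y, lhs (φ + ad f t) χ = ∑ t : Y, rhs (φ + ad f t) χ := by
    rw [lhs_shift hX hφ, rhs_shift hX hφ]
    exact Finset.sum_congr rfl fun t _ => eq_of_lk (h t)
  have h2 := (Finset.sum_eq_sum_iff_of_le fun t _ => lhs_le_rhs (φ + ad f t) χ).1 h1 0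
    (Finset.mem_univ _)
  have h3 : φ + ad f (0 : Y) = φ := by
    rw [show ad f (0 : Y) = 0 from map_zero _, add_zero]
  rw [h3] at h2
  exact lk_of_eq h2

theorem lk_inner {f : X →ₗ[ZMod 2] Y →ₗ[ZMod 2] B} (hY : LY f) (s t : Y) :
    Lk (ad f s) (ad f t) := by
  intro v w h
  exact hY v w s t h

/-- all pairs of locally inner maps are linked -/
theorem lk_all {f : X →ₗ[ZMod 2] Y →ₗ[ZMod 2] B} (hX : LX f) (hY : LY f)
    {φ χ : X →ₗ[ZMod 2] B} (hφ : φ ∈ LI f) (hχ : χ ∈ LI f) : Lk φ χ :=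
  lk_step hX (fun _ => (lk_step hX (fun s => lk_inner hY s _) hχ).symm) hφ

end Pool.Agent.HAS82
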